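import Pool.Agent.R472.BalaMain

/-!
Bala's supercongruence: `a(p^r) ≡ a(p^(r-1)) (mod p^(3r+3))` for all primes `p ≥ 5` and `r ≥ 2`.
-/

namespace Pool.Agent.Results.MP_5eb62f_nt.Supercongruence

open Finset
open Pool.Agent.R472.Bala (D T super dvd_of_D)

/-- `a(0) = 1` and `a(n) = ∑_{j<n} C(n,j) C(n-1,j) C(n+j-1,j)^2` for `n ≥ 1`. -/
def a (n : ℕ) : ℕ :=
  if n = 0 then 1
  else ∑ j ∈ range n, n.choose j * (n-1).choose j * ((n+j-1).choose j)^2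

theorem a_cast {n : ℕ} (hn : 1 ≤ n) : ((a n : ℤ) : ℚ) = ∑ j ∈ range n, T n j := by
  unfold a T
  rw [if_neg (by omega)]
  push_cast
  rfl

/-- **Q1 (Bala 2022)** holds: for every prime `p ≥ 5` and every `r ≥ 2`, `p^(3r+3)` divides
`a(p^r) - a(p^(r-1))`. -/
theorem result (p : ℕ) (hp : p.Prime) (h5 : 5 ≤ p) (r : ℕ) (hr : 2 ≤ r) :
    (p:ℤ)^(3*r+3) ∣ (a (p^r) : ℤ) - (a (p^(r-1)) : ℤ) := by
  obtain ⟨e, rfl⟩ : ∃ e, r = e+1 := ⟨r-1, by omega⟩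
  have he : 1 ≤ e := by omega
  rw [Nat.add_sub_cancel, show 3*(e+1)+3 = 3*e+6 by ring]
  apply dvd_of_D hp
  have h := super hp h5 he
  rw [← a_cast (Nat.pow_pos hp.pos), ← a_cast (Nat.pow_pos hp.pos)] at h
  push_cast at h ⊢
  exact h

end Pool.Agent.Results.MP_5eb62f_nt.Supercongruence
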